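import Pool.Agent.W336.Dens.Boost

/-!
# Amenability and the density `is₁₂` of the cells of a partition

A group that is not amenable is the union of two disjoint (nonempty) sets with `is₁₂ = 0`.
Consequently the properties (a) and (d) of MP_d97def_al characterise amenability.
-/

namespace Pool.Agent.Results.MP_d97def_al.DensityCharacterisation

universe u

open Pool.Agent.W336.Dens

/-- `G` is amenable: there is a left-invariant finitely additive probability measure on all
subsets of `G`. -/
def IsAmenable (G : Type u) [Group G] : Prop :=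
  ∃ m : Set G → ℝ, (∀ A, 0 ≤ m A) ∧ m Set.univ = 1 ∧
    (∀ A B, Disjoint A B → m (A ∪ B) = m A + m B) ∧
    ∀ (g : G) (A : Set G), m ((fun x => g * x) '' A) = m A

/-- The finitely supported probability measures on `G`. -/
structure FinProb (G : Type u) where
  /-- a finite set that carries the measure -/
  supp : Finset G
  /-- the weights of the points -/
  wt : G → ℝ
  wt_nonneg : ∀ g ∈ supp, 0 ≤ wt g
  wt_sum : ∑ g ∈ supp, wt g = 1

open Classical in
/-- The measure of a set. -/
noncomputable def FinProb.mass {G : Type u} (μ : FinProb G) (A : Set G) : ℝ :=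
  ∑ g ∈ μ.supp.filter (fun g => g ∈ A), μ.wt g

/-- `is₁₂(A) = inf_μ sup_y μ(A y)`, where `μ` runs over the finitely supported probability
measures. -/
noncomputable def is12 {G : Type u} [Group G] (A : Set G) : ℝ :=
  ⨅ μ : FinProb G, ⨆ y : G, μ.mass ((fun x => x * y) '' A)

/-- Property (a): every partition into `n` nonempty cells has a cell with `is₁₂ ≥ 1/n`. -/
def PropertyA (G : Type u) [Group G] : Prop :=
  ∀ n : ℕ, 1 ≤ n → ∀ c : G → Fin n, Function.Surjective c →
    ∃ i : Fin n, 1 / (n : ℝ) ≤ is12 {x | c x = i}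

/-- Property (d): every partition into finitely many nonempty cells has a cell with `is₁₂ > 0`. -/
def PropertyD (G : Type u) [Group G] : Prop :=
  ∀ n : ℕ, 1 ≤ n → ∀ c : G → Fin n, Function.Surjective c →
    ∃ i : Fin n, 0 < is12 {x | c x = i}

section basics

variable {G : Type u}

lemma mass_nonneg (μ : FinProb G) (A : Set G) : 0 ≤ μ.mass A := by
  classical
  unfold FinProb.mass
  exact Finset.sum_nonneg fun g hg => μ.wt_nonneg g (Finset.mem_filter.1 hg).1

lemma mass_le_one (μ : FinProb G) (A : Set G) : μ.mass A ≤ 1 := by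
  classical
  unfold FinProb.mass
  rw [← μ.wt_sum]
  exact Finset.sum_le_sum_of_subset_of_nonneg (Finset.filter_subset _ _)
    fun g hg _ => μ.wt_nonneg g hg

lemma mass_univ (μ : FinProb G) : μ.mass Set.univ = 1 := by
  classical
  unfold FinProb.mass
  simp [μ.wt_sum]

variable [Group G]

lemma bddAbove_mass (μ : FinProb G) (A : Set G) :
    BddAbove (Set.range fun y : G => μ.mass ((fun x => x * y) '' A)) :=
  ⟨1, by rintro _ ⟨y, rfl⟩; exact mass_le_one μ _⟩

lemma is12_nonneg (A : Set G) : 0 ≤ is12 A :=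
  Real.iInf_nonneg fun μ => Real.iSup_nonneg fun _ => mass_nonneg μ _

lemma is12_le {A : Set G} {c : ℝ} (μ : FinProb G)
    (h : ∀ y : G, μ.mass ((fun x => x * y) '' A) ≤ c) : is12 A ≤ c := by
  refine (ciInf_le ⟨0, ?_⟩ μ).trans (ciSup_le h)
  rintro _ ⟨ν, rfl⟩
  exact Real.iSup_nonneg fun _ => mass_nonneg ν _

instance : Nonempty (FinProb G) :=
  ⟨⟨{1}, fun _ => 1, fun _ _ => zero_le_one, by simp⟩⟩

end basics

section nonamenable

variable {G : Type u} [Group G]

/-- The main estimate: the return set of a small set is small. -/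
lemma is12_eq_zero {Q : Set (Set G → ℝ)} (hQ : Minimal (· ∈ InvSets G) Q)
    (L : (Set G → ℝ) →ₗ[ℝ] ℝ) (hL : Continuous L) (m : ℝ) (hm : ∀ ν ∈ Q, m ≤ L ν)
    (hm' : ∃ ν ∈ Q, L ν = m) (δ : ℝ) (hδ : 0 < δ) (ν₀ : Set G → ℝ) (hν₀ : ν₀ ∈ Q)
    (A : Set G) (hA : ∀ g ∈ A, m + δ ≤ L (T g ν₀)) : is12 A = 0 := by
  classical
  refine le_antisymm ?_ (is12_nonneg A)
  refine le_of_forall_pos_le_add fun η hη => ?_
  rw [zero_add]
  have hinv := hQ.prop.2.2.2.2
  obtain ⟨s, α, hα, hsum, hlt⟩ := average_small hQ L hL (m + η * δ) (by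
    obtain ⟨ν, hν, h⟩ := hm'
    exact ⟨ν, hν, by rw [h]; have := mul_pos hη hδ; linarith⟩)
  refine is12_le ⟨s, α, hα, hsum⟩ fun y => ?_
  have hν : T y⁻¹ ν₀ ∈ Q := hinv _ _ hν₀
  have h1 := hlt _ hν
  have h2 : ∑ g ∈ s, α g * (L (T g (T y⁻¹ ν₀)) - m) < η * δ := by
    have : ∑ g ∈ s, α g * (L (T g (T y⁻¹ ν₀)) - m) =
        ∑ g ∈ s, α g * L (T g (T y⁻¹ ν₀)) - m := by
      simp only [mul_sub, Finset.sum_sub_distrib]
      rw [← Finset.sum_mul, hsum, one_mul]
    rw [this]
    linarith
  have h3 : δ * ∑ g ∈ s.filter (fun g => g ∈ (fun x => x * y) '' A), α g ≤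
      ∑ g ∈ s, α g * (L (T g (T y⁻¹ ν₀)) - m) := by
    rw [Finset.mul_sum]
    calc ∑ g ∈ s.filter (fun g => g ∈ (fun x => x * y) '' A), δ * α g
        ≤ ∑ g ∈ s.filter (fun g => g ∈ (fun x => x * y) '' A),
            α g * (L (T g (T y⁻¹ ν₀)) - m) := by
          refine Finset.sum_le_sum fun g hg => ?_
          obtain ⟨hg1, hg2⟩ := Finset.mem_filter.1 hg
          obtain ⟨x, hx, rfl⟩ := hg2
          have h4 := hA x hx
          dsimp only
          rw [← T_mul, mul_inv_cancel_right, mul_comm]
          exact mul_le_mul_of_nonneg_left (by linarith) (hα _ hg1)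
      _ ≤ _ := by
          refine Finset.sum_le_sum_of_subset_of_nonneg (Finset.filter_subset _ _)
            fun g hg _ => ?_
          exact mul_nonneg (hα g hg) (sub_nonneg.2 (hm _ (hinv _ _ hν)))
  have h5 : δ * ∑ g ∈ s.filter (fun g => g ∈ (fun x => x * y) '' A), α g < δ * η := by
    rw [mul_comm δ η]
    exact h3.trans_lt h2
  exact (lt_of_mul_lt_mul_left h5 hδ.le).le

/-- A group that is not amenable is the union of two disjoint sets with `is₁₂ = 0`. -/
theorem exists_null_pair (hG : ¬ IsAmenable G) : ∃ A : Set G, is12 A = 0 ∧ is12 Aᶜ = 0 := by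
  obtain ⟨Q, hQ⟩ := exists_minimal (G := G)
  obtain ⟨hQ1, hQ2, hQ3, hQ4, hQ5⟩ := hQ.prop
  have hcomp : IsCompact Q := (isCompact_means G).of_isClosed_subset hQ3 hQ1
  have hns : ∃ ν₁ ∈ Q, ∃ ν₂ ∈ Q, ∃ B : Set G, ν₁ B < ν₂ B := by
    by_contra hcon
    push Not at hcon
    obtain ⟨ν, hν⟩ := hQ2
    apply hG
    refine ⟨ν, (hQ1 hν).1, (hQ1 hν).2.1, (hQ1 hν).2.2, fun g A => ?_⟩
    have h1 : T g⁻¹ ν A = ν ((fun x => g * x) '' A) := by
      rw [T_apply]
      congr 1
      ext x
      simp only [Set.mem_ofPred_eq, Set.mem_image]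
      constructor
      · intro h
        exact ⟨_, h, by simp⟩
      · rintro ⟨y, hy, rfl⟩
        simpa using hy
    rw [← h1]
    exact le_antisymm (hcon _ hν _ (hQ5 _ _ hν) A) (hcon _ (hQ5 _ _ hν) _ hν A)
  obtain ⟨ν₁, hν₁, ν₂, hν₂, B, hB⟩ := hns
  let L : (Set G → ℝ) →ₗ[ℝ] ℝ := LinearMap.proj B
  have hL : Continuous L := continuous_apply B
  obtain ⟨p, hp, hpmin⟩ := hcomp.exists_isMinOn hQ2 hL.continuousOn
  obtain ⟨q, hq, hqmax⟩ := hcomp.exists_isMaxOn hQ2 hL.continuousOn
  have hpq : L p < L q := by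
    have h1 : L p ≤ L ν₁ := hpmin hν₁
    have h2 : L ν₂ ≤ L q := hqmax hν₂
    exact h1.trans_lt (lt_of_lt_of_le hB h2)
  refine ⟨{g | (L p + L q) / 2 ≤ L (T g ν₁)}, ?_, ?_⟩
  · refine is12_eq_zero hQ L hL (L p) (fun ν hν => hpmin hν) ⟨p, hp, rfl⟩
      ((L q - L p) / 2) (by linarith) ν₁ hν₁ _ fun g hg => ?_
    have : (L p + L q) / 2 ≤ L (T g ν₁) := hg
    linarith
  · refine is12_eq_zero hQ (-L) hL.neg (-L q) (fun ν hν => ?_) ⟨q, hq, rfl⟩
      ((L q - L p) / 2) (by linarith) ν₁ hν₁ _ fun g hg => ?_
    · have : L ν ≤ L q := hqmax hν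
      simpa using this
    · have : ¬ (L p + L q) / 2 ≤ L (T g ν₁) := hg
      push Not at this
      simp only [LinearMap.neg_apply]
      linarith

end nonamenable

section amenable

variable {G : Type u}

open Classical in
/-- A finitely additive measure integrates a finite combination of indicator functions
monotonically. -/
lemma integrate_le {m : Set G → ℝ} (hm : m ∈ Means G) {ι : Type*} (s : Finset ι) (α : ι → ℝ)
    (B : ι → Set G) (c : ℝ) (h : ∀ z : G, ∑ i ∈ s.filter (fun i => z ∈ B i), α i ≤ c) :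
    ∑ i ∈ s, α i * m (B i) ≤ c := by
  have hempty : m ∅ = 0 := by
    have := hm.2.2 ∅ ∅ (by simp)
    rw [Set.union_self] at this
    linarith
  -- additivity over finite disjoint families
  have hadd : ∀ (P : Finset (Finset ι)) (W : Finset ι → Set G),
      (∀ t ∈ P, ∀ t' ∈ P, t ≠ t' → Disjoint (W t) (W t')) →
      m (⋃ t ∈ P, W t) = ∑ t ∈ P, m (W t) := by
    intro P W
    induction P using Finset.induction_on with
    | empty => intro _; simpa using hempty
    | insert a P ha ih =>
      intro hd
      rw [Finset.set_biUnion_insert, Finset.sum_insert ha, hm.2.2, ih]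
      · intro t ht t' ht' hne
        exact hd t (Finset.mem_insert_of_mem ht) t' (Finset.mem_insert_of_mem ht') hne
      · rw [Set.disjoint_iUnion₂_right]
        intro t ht
        exact hd a (Finset.mem_insert_self _ _) t (Finset.mem_insert_of_mem ht)
          (fun h => ha (h ▸ ht))
  let atom : Finset ι → Set G := fun t => {z | s.filter (fun i => z ∈ B i) = t}
  have hdisj : ∀ P : Finset (Finset ι), ∀ t ∈ P, ∀ t' ∈ P, t ≠ t' →
      Disjoint (atom t) (atom t') := by
    intro P t _ t' _ hne
    rw [Set.disjoint_left]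
    intro z hz hz'
    exact hne (hz.symm.trans hz')
  have hB : ∀ i ∈ s, m (B i) = ∑ t ∈ s.powerset.filter (fun t => i ∈ t), m (atom t) := by
    intro i hi
    rw [← hadd _ _ (hdisj _)]
    congr 1
    ext z
    simp only [Set.mem_iUnion, Finset.mem_filter, Finset.mem_powerset, exists_prop]
    constructor
    · intro hz
      exact ⟨s.filter (fun i => z ∈ B i),
        ⟨Finset.filter_subset _ _, Finset.mem_filter.2 ⟨hi, hz⟩⟩, rfl⟩
    · rintro ⟨t, ⟨_, hit⟩, ht⟩
      have : s.filter (fun i => z ∈ B i) = t := ht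
      rw [← this] at hit
      exact (Finset.mem_filter.1 hit).2
  have huniv : ∑ t ∈ s.powerset, m (atom t) = 1 := by
    rw [← hadd _ _ (hdisj _), ← hm.2.1]
    congr 1
    ext z
    simp only [Set.mem_iUnion, Finset.mem_powerset, exists_prop, Set.mem_univ, iff_true]
    exact ⟨s.filter (fun i => z ∈ B i), Finset.filter_subset _ _, rfl⟩
  calc ∑ i ∈ s, α i * m (B i)
      = ∑ i ∈ s, ∑ t ∈ s.powerset, if i ∈ t then α i * m (atom t) else 0 := by
        refine Finset.sum_congr rfl fun i hi => ?_
        rw [hB i hi, Finset.mul_sum, Finset.sum_filter]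
    _ = ∑ t ∈ s.powerset, ∑ i ∈ s, if i ∈ t then α i * m (atom t) else 0 := Finset.sum_comm
    _ = ∑ t ∈ s.powerset, (∑ i ∈ t, α i) * m (atom t) := by
        refine Finset.sum_congr rfl fun t ht => ?_
        rw [← Finset.sum_filter, Finset.sum_mul]
        congr 1
        ext i
        simp only [Finset.mem_filter]
        exact ⟨fun h => h.2, fun h => ⟨Finset.mem_powerset.1 ht h, h⟩⟩
    _ ≤ ∑ t ∈ s.powerset, c * m (atom t) := by
        refine Finset.sum_le_sum fun t _ => ?_
        by_cases hne : (atom t).Nonempty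
        · obtain ⟨z, hz⟩ := hne
          refine mul_le_mul_of_nonneg_right ?_ (hm.1 _)
          have : s.filter (fun i => z ∈ B i) = t := hz
          rw [← this]
          exact h z
        · rw [Set.not_nonempty_iff_eq_empty] at hne
          rw [hne, hempty, mul_zero, mul_zero]
    _ = c := by rw [← Finset.mul_sum, huniv, mul_one]

variable [Group G]

/-- An invariant finitely additive measure is bounded by `is₁₂`. -/
lemma le_is12 {m : Set G → ℝ} (hm : m ∈ Means G)
    (hinv : ∀ (g : G) (A : Set G), m ((fun x => g * x) '' A) = m A) (A : Set G) :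
    m A ≤ is12 A := by
  classical
  refine le_ciInf fun μ => ?_
  have h1 := integrate_le hm μ.supp μ.wt (fun g => {z | g * z ∈ A})
    (⨆ y : G, μ.mass ((fun x => x * y) '' A)) (fun z => by
      refine le_trans (le_of_eq ?_) (le_ciSup (bddAbove_mass μ A) z⁻¹)
      unfold FinProb.mass
      congr 1
      ext g
      simp only [Finset.mem_filter, Set.mem_ofPred_eq, Set.mem_image]
      constructor
      · rintro ⟨h1, h2⟩
        exact ⟨h1, _, h2, by simp⟩
      · rintro ⟨h1, x, hx, rfl⟩
        exact ⟨h1, by simpa using hx⟩)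
  have h2 : ∀ g : G, m {z | g * z ∈ A} = m A := by
    intro g
    rw [← hinv g]
    congr 1
    ext z
    simp only [Set.mem_ofPred_eq, Set.mem_image]
    constructor
    · rintro ⟨x, hx, rfl⟩
      exact hx
    · intro hz
      exact ⟨g⁻¹ * z, by simpa using hz, by simp⟩
  simp only [h2] at h1
  rwa [← Finset.sum_mul, μ.wt_sum, one_mul] at h1

/-- Amenable groups have property (a). -/
lemma propertyA_of_amenable (hG : IsAmenable G) : PropertyA G := by
  classical
  obtain ⟨m, hm1, hm2, hm3, hinv⟩ := hG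
  have hm : m ∈ Means G := ⟨hm1, hm2, hm3⟩
  intro n hn c _
  by_contra hcon
  push Not at hcon
  have h1 : ∀ i : Fin n, m {x | c x = i} < 1 / (n : ℝ) := fun i =>
    (le_is12 hm hinv _).trans_lt (hcon i)
  have h2 : m Set.univ ≤ ∑ i : Fin n, m {x | c x = i} := by
    have h3 : ∀ P : Finset (Fin n), m {x | c x ∈ P} = ∑ i ∈ P, m {x | c x = i} := by
      intro P
      induction P using Finset.induction_on with
      | empty =>
        have := hm3 ∅ ∅ (by simp)
        rw [Set.union_self] at this
        simp only [Finset.notMem_empty, Finset.sum_empty]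
        have h0 : {x : G | False} = ∅ := by ext; simp
        rw [h0]
        linarith
      | insert a P ha ih =>
        rw [Finset.sum_insert ha, ← ih, ← hm3]
        · congr 1
          ext x
          simp [Finset.mem_insert]
        · rw [Set.disjoint_left]
          intro x hx hx'
          have h4 : c x = a := hx
          have h5 : c x ∈ P := hx'
          exact ha (h4 ▸ h5)
    have h6 := h3 Finset.univ
    simp only [Finset.mem_univ] at h6
    have h7 : {x : G | True} = Set.univ := by ext; simp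
    rw [h7] at h6
    exact h6.le
  rw [hm2] at h2
  have hpos : (0 : ℝ) < n := by exact_mod_cast hn
  have h8 : ∑ i : Fin n, m {x | c x = i} < ∑ _i : Fin n, 1 / (n : ℝ) := by
    refine Finset.sum_lt_sum_of_nonempty ?_ fun i _ => h1 i
    exact ⟨⟨0, hn⟩, Finset.mem_univ _⟩
  rw [Finset.sum_const, Finset.card_univ, Fintype.card_fin, nsmul_eq_mul,
    mul_one_div_cancel hpos.ne'] at h8
  linarith

end amenable

/-- **Theorem.** A group that is not amenable is the union of two disjoint sets with `is₁₂ = 0`.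
Hence property (a) and property (d) each characterise amenability. -/
theorem result (G : Type u) [Group G] :
    (¬ IsAmenable G → ∃ A : Set G, is12 A = 0 ∧ is12 Aᶜ = 0) ∧
      (PropertyA G ↔ IsAmenable G) ∧ (PropertyD G ↔ IsAmenable G) := by
  classical
  have hAD : PropertyA G → PropertyD G := by
    intro h n hn c hc
    obtain ⟨i, hi⟩ := h n hn c hc
    have hpos : (0 : ℝ) < n := by exact_mod_cast hn
    exact ⟨i, lt_of_lt_of_le (by positivity) hi⟩
  have hD : PropertyD G → IsAmenable G := by
    intro h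
    by_contra hG
    obtain ⟨A, hA, hA'⟩ := exists_null_pair hG
    have huniv : is12 (Set.univ : Set G) = 1 := by
      unfold is12
      have : ∀ (μ : FinProb G), (⨆ y : G, μ.mass ((fun x => x * y) '' (Set.univ : Set G))) = 1 := by
        intro μ
        have h1 : ∀ y : G, (fun x => x * y) '' (Set.univ : Set G) = Set.univ := by
          intro y
          rw [Set.image_univ]
          exact (mul_right_surjective y).range_eq
        simp only [h1, mass_univ]
        exact ciSup_const
      simp only [this]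
      exact ciInf_const
    have hne : A ≠ Set.univ := by
      rintro rfl
      rw [huniv] at hA
      norm_num at hA
    have hne' : Aᶜ ≠ Set.univ := by
      intro h1
      rw [h1, huniv] at hA'
      norm_num at hA'
    obtain ⟨x, hx⟩ := (Set.ne_univ_iff_exists_notMem A).1 hne
    obtain ⟨y, hy⟩ := (Set.ne_univ_iff_exists_notMem Aᶜ).1 hne'
    rw [Set.notMem_compl_iff] at hy
    obtain ⟨i, hi⟩ := h 2 (by norm_num) (fun g => if g ∈ A then 0 else 1) (by
      intro i
      fin_cases i
      · exact ⟨y, by simp [hy]⟩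
      · exact ⟨x, by simp [hx]⟩)
    fin_cases i
    · have : {g : G | (if g ∈ A then (0 : Fin 2) else 1) = 0} = A := by
        ext g
        by_cases hg : g ∈ A <;> simp [hg]
      simp only [Fin.zero_eta] at hi
      rw [this, hA] at hi
      exact lt_irrefl _ hi
    · have : {g : G | (if g ∈ A then (0 : Fin 2) else 1) = 1} = Aᶜ := by
        ext g
        by_cases hg : g ∈ A <;> simp [hg]
      simp only [Fin.mk_one] at hi
      rw [this, hA'] at hi
      exact lt_irrefl _ hi
  exact ⟨exists_null_pair, ⟨fun h => hD (hAD h), propertyA_of_amenable⟩,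
    ⟨hD, fun h => hAD (propertyA_of_amenable h)⟩⟩

end Pool.Agent.Results.MP_d97def_al.DensityCharacterisation
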